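import Mathlib
import Pool.Agent.H82.NP.Trig

/-!
# NP, module UNIQ: pairing formula and uniqueness of coefficients
-/

set_option autoImplicit false

open Metric Set Filter Topology Polynomial

namespace Pool.Agent.H62.NP

open Pool.Agent.H82.NP
open Pool.Agent.H82.Hp (co Np avg_re_re avg_re circleIntegrable_of co_zero)

/-- from the circle of radius `ρ` to the unit circle -/
lemma avg_scale (f : ℂ → ℝ) (ρ : ℝ) :
    Real.circleAverage f 0 ρ = av (fun z => f (ρ * z)) := by
  unfold av
  rw [Real.circleAverage_eq_circleAverage_zero_one]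
  simp

lemma TP_cont (n : ℕ) (τ : ℕ → ℂ) : Continuous (TP n τ) := by
  unfold TP
  fun_prop

/-- the pairing on circles inside the disc -/
lemma avg_TP {h : ℂ → ℂ} (hh : DifferentiableOn ℂ h (ball 0 1)) {ρ : ℝ} (h0 : 0 < ρ)
    (h1 : ρ < 1) (n : ℕ) (τ : ℕ → ℂ) (hτ : (τ 0).im = 0) :
    Real.circleAverage (fun z => TP n τ (z / ρ) * (h z).re) 0 ρ
      = L n (fun k => (ρ : ℂ) ^ k * co h k) τ := by
  have e1 : (fun z => TP n τ (z / ρ) * (h z).re) = fun z => ((τ 0).re • (h z).re)
      + ∑ k ∈ Finset.Icc 1 n, (2 : ℝ) • (((starRingEnd ℂ) (τ k) * (z / ρ) ^ k).re * (h z).re) := by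
    ext z
    simp only [TP, smul_eq_mul]
    rw [add_mul, Finset.mul_sum, Finset.sum_mul]
    congr 1
    apply Finset.sum_congr rfl
    intro k _
    ring
  have hre : ContinuousOn (fun z => (h z).re) (sphere 0 |ρ|) :=
    Complex.continuous_re.comp_continuousOn (circleIntegrable_of hh h0 h1)
  have c1 : ∀ (γ : ℂ) (k : ℕ), ContinuousOn (fun z => (γ * (z / ρ) ^ k).re * (h z).re)
      (sphere 0 |ρ|) := by
    intro γ k
    apply ContinuousOn.mul _ hre
    apply Continuous.continuousOn
    fun_prop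
  have c2 : ∀ k ∈ Finset.Icc 1 n, CircleIntegrable
      (fun z => (2 : ℝ) • (((starRingEnd ℂ) (τ k) * (z / ρ) ^ k).re * (h z).re)) 0 ρ :=
    fun k _ => ContinuousOn.circleIntegrable' ((c1 _ k).const_smul (2 : ℝ))
  have c3 : CircleIntegrable (fun z => (τ 0).re • (h z).re) 0 ρ :=
    ContinuousOn.circleIntegrable' (hre.const_smul (τ 0).re)
  have c4 : CircleIntegrable (fun z => ∑ k ∈ Finset.Icc 1 n,
      (2 : ℝ) • (((starRingEnd ℂ) (τ k) * (z / ρ) ^ k).re * (h z).re)) 0 ρ := by
    apply ContinuousOn.circleIntegrable'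
    apply continuousOn_finsetSum
    intro k _
    exact (c1 _ k).const_smul (2 : ℝ)
  rw [e1, Real.circleAverage_fun_add c3 c4, Real.circleAverage_fun_smul,
    Real.circleAverage_fun_sum c2, avg_re hh h0 h1]
  have e2 : ∀ k ∈ Finset.Icc 1 n, Real.circleAverage
      (fun z => (2 : ℝ) • (((starRingEnd ℂ) (τ k) * (z / ρ) ^ k).re * (h z).re)) 0 ρ
      = ((ρ : ℂ) ^ k * co h k * τ k).re := by
    intro k hk
    rw [Finset.mem_Icc] at hk
    rw [Real.circleAverage_fun_smul, avg_re_re hh h0 h1 hk.1, Complex.conj_conj, smul_eq_mul]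
    have : (ρ : ℂ) ^ k * co h k * τ k = ((ρ ^ k : ℝ) : ℂ) * (τ k * co h k) := by
      push_cast; ring
    rw [this, Complex.re_ofReal_mul]
    ring
  rw [Finset.sum_congr rfl e2, L, Complex.re_sum, Finset.range_eq_Ico,
    Finset.sum_eq_sum_Ico_succ_bot (Nat.succ_pos n)]
  have e3 : ((ρ : ℂ) ^ 0 * co h 0 * τ 0).re = (τ 0).re • (h 0).re := by
    rw [pow_zero, one_mul, co_zero, Complex.mul_re, hτ, smul_eq_mul]
    ring
  rw [e3]
  rfl

/-- the same on the unit circle -/
lemma av_TP {h : ℂ → ℂ} (hh : DifferentiableOn ℂ h (ball 0 1)) {ρ : ℝ} (h0 : 0 < ρ)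
    (h1 : ρ < 1) (n : ℕ) (τ : ℕ → ℂ) (hτ : (τ 0).im = 0) :
    av (fun z => TP n τ z * (h (ρ * z)).re) = L n (fun k => (ρ : ℂ) ^ k * co h k) τ := by
  rw [← avg_TP hh h0 h1 n τ hτ, avg_scale]
  congr 1
  ext z
  have hρ : (ρ : ℂ) ≠ 0 := by exact_mod_cast h0.ne'
  rw [mul_div_cancel_left₀ _ hρ]

/-- Taylor coefficients of polynomials -/
lemma co_poly (P : ℂ[X]) (k : ℕ) : co (fun z => P.eval z) k = P.coeff k := by
  have h1 : ∀ (m : ℕ), iteratedDeriv m (fun z => P.eval z)
      = fun z => (derivative^[m] P).eval z := by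
    intro m
    induction m with
    | zero => simp
    | succ m ih =>
      rw [iteratedDeriv_succ, ih]
      ext z
      rw [Polynomial.deriv, Function.iterate_succ_apply']
  rw [co, h1]
  simp only
  rw [← Polynomial.coeff_zero_eq_eval_zero, Polynomial.coeff_iterate_derivative]
  simp only [zero_add, Nat.descFactorial_self, nsmul_eq_mul]
  have hk : (k.factorial : ℂ) ≠ 0 := by exact_mod_cast Nat.factorial_ne_zero k
  field_simp

theorem t_LAV : T_LAV := by
  intro n c τ hτ
  set P : ℂ[X] := ∑ k ∈ Finset.range (n + 1), C (c k * 2 ^ k) * X ^ k with hP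
  have hPe : ∀ z, P.eval z = ∑ k ∈ Finset.range (n + 1), c k * 2 ^ k * z ^ k := by
    intro z
    simp [hP, eval_finsetSum]
  have hPc : ∀ k, k < n + 1 → P.coeff k = c k * 2 ^ k := by
    intro k hk
    simp only [hP, finsetSum_coeff, coeff_C_mul_X_pow]
    rw [Finset.sum_eq_single k]
    · simp
    · intro j _ hj
      rw [if_neg (Ne.symm hj)]
    · intro hk'
      exact absurd (Finset.mem_range.mpr hk) hk'
  have hd : DifferentiableOn ℂ (fun z => P.eval z) (ball 0 1) :=
    P.differentiable.differentiableOn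
  have h1 := av_TP hd (ρ := 1 / 2) (by norm_num) (by norm_num) n τ hτ
  have e1 : (fun z => TP n τ z * (P.eval (((1 / 2 : ℝ) : ℂ) * z)).re)
      = fun z => TP n τ z * (∑ k ∈ Finset.range (n + 1), c k * z ^ k).re := by
    ext z
    rw [hPe]
    congr 2
    apply Finset.sum_congr rfl
    intro k _
    rw [mul_pow]
    push_cast
    have : (2 : ℂ) ^ k * (1 / 2) ^ k = 1 := by rw [← mul_pow]; norm_num
    linear_combination (c k * z ^ k) * this
  rw [e1] at h1
  rw [h1, L, L]
  congr 1
  apply Finset.sum_congr rfl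
  intro k hk
  rw [Finset.mem_range] at hk
  rw [co_poly, hPc k hk]
  push_cast
  have : (2 : ℂ) ^ k * (1 / 2) ^ k = 1 := by rw [← mul_pow]; norm_num
  linear_combination (c k * τ k) * this

theorem t_UNIQ : T_UNIQ := by
  intro n τ τ' h
  -- make the zeroth coefficient real
  set σ : ℕ → ℂ := fun k => if k = 0 then ((τ 0).re : ℂ) else τ k with hσ
  set σ' : ℕ → ℂ := fun k => if k = 0 then ((τ' 0).re : ℂ) else τ' k with hσ'
  have hT : ∀ z, TP n σ z = TP n τ z := by
    intro z
    simp only [TP, hσ, if_true, Complex.ofReal_re]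
    congr 2
    apply Finset.sum_congr rfl
    intro k hk
    rw [Finset.mem_Icc] at hk
    rw [if_neg (by omega)]
  have hT' : ∀ z, TP n σ' z = TP n τ' z := by
    intro z
    simp only [TP, hσ', if_true, Complex.ofReal_re]
    congr 2
    apply Finset.sum_congr rfl
    intro k hk
    rw [Finset.mem_Icc] at hk
    rw [if_neg (by omega)]
  have hL : ∀ c : ℕ → ℂ, L n c σ = L n c σ' := by
    intro c
    rw [← t_LAV n c σ (by simp [hσ]), ← t_LAV n c σ' (by simp [hσ'])]
    unfold av
    apply Real.circleAverage_congr_sphere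
    intro z hz
    have hz' : ‖z‖ = 1 := by simpa using hz
    simp only
    rw [hT, hT', h z hz']
  have hk : ∀ k, k ≤ n → σ k = σ' k := by
    intro k hk
    have key : ∀ w : ℂ, (w * σ k).re = (w * σ' k).re := by
      intro w
      have h1 := hL (fun j => if j = k then w else 0)
      unfold L at h1
      have e : ∀ s : ℕ → ℂ, ∑ j ∈ Finset.range (n + 1), (if j = k then w else 0) * s j
          = w * s k := by
        intro s
        rw [Finset.sum_eq_single k]
        · simp
        · intro j _ hj; simp [hj]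
        · intro hk'
          exact absurd (Finset.mem_range.mpr (by omega)) hk'
      rw [e, e] at h1
      exact h1
    have h1 := key 1
    have h2 := key (-Complex.I)
    apply Complex.ext
    · simpa using h1
    · simpa using h2
  refine ⟨?_, fun k h1 h2 => ?_⟩
  · have := hk 0 (Nat.zero_le n)
    simp only [hσ, hσ', if_true] at this
    exact_mod_cast this
  · have := hk k h2
    simp only [hσ, hσ'] at this
    rwa [if_neg (by omega), if_neg (by omega)] at this

end Pool.Agent.H62.NP
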