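import Mathlib
import Pool.Agent.H62.NP.UNIQ

/-!
# NP, module NPCC: the class `N_p` satisfies the Gibbs inequalities
-/

set_option autoImplicit false

open Metric Set Filter Topology Polynomial

namespace Pool.Agent.H62.NP

open Pool.Agent.H82.NP
open Pool.Agent.H82.Hp (co Np avg_re_re avg_re circleIntegrable_of co_zero Mp_le_iff mem_Np_log)

/-- the mean of a trigonometric polynomial -/
lemma av_TP_one (n : ℕ) (τ : ℕ → ℂ) (hτ : (τ 0).im = 0) : av (TP n τ) = (τ 0).re := by
  have h := t_LAV n (fun k => if k = 0 then 1 else 0) τ hτ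
  have e1 : ∀ s : ℕ → ℂ, ∑ k ∈ Finset.range (n + 1), (if k = 0 then (1 : ℂ) else 0) * s k = s 0 := by
    intro s
    rw [Finset.sum_eq_single 0]
    · simp
    · intro j _ hj; simp [hj]
    · intro h; simp at h
  simp only [L, e1, pow_zero, Complex.one_re, mul_one] at h
  exact h

/-- positivity of the average of a positive continuous function -/
lemma av_pos {w : ℂ → ℝ} (hw : ContinuousOn w (sphere 0 1)) (hpos : ∀ z : ℂ, ‖z‖ = 1 → 0 < w z) :
    0 < av w := by
  have hne : (sphere (0 : ℂ) 1).Nonempty := ⟨1, by simp⟩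
  obtain ⟨z0, hz0, hmin⟩ := (isCompact_sphere (0 : ℂ) 1).exists_isMinOn hne hw
  have h1 : 0 < w z0 := hpos z0 (by simpa using hz0)
  have h2 : w z0 ≤ av w := by
    unfold av
    rw [← Real.circleAverage_const (w z0) (0 : ℂ) 1]
    apply Real.circleAverage_mono
    · exact circleIntegrable_const _ _ _
    · apply ContinuousOn.circleIntegrable'
      simpa using hw
    · intro z hz
      exact hmin (by simpa using hz)
  exact h1.trans_le h2

theorem t_NPCC (hG : T_GIBBS) : T_NPCC := by
  intro p hp f hf h hh hfh n τ hτ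
  have hp0 : 0 < p := by linarith
  have hmean := (mem_Np_log hp0 hfh).mp hf.2.2
  have him : (τ 0).im = 0 := by rw [hτ.1]; simp
  have key : ∀ ρ : ℝ, 0 < ρ → ρ < 1 →
      p * L n (fun k => (ρ : ℂ) ^ k * co h k) τ ≤ ent (TP n τ) := by
    intro ρ h0 h1
    set w : ℂ → ℝ := fun z => Real.exp (p * (h (ρ * z)).re) with hw
    have hmaps : MapsTo (fun z : ℂ => (ρ : ℂ) * z) (sphere 0 1) (ball 0 1) := by
      intro z hz
      rw [mem_sphere_zero_iff_norm] at hz
      rw [mem_ball_zero_iff, norm_mul, hz, Complex.norm_real, Real.norm_eq_abs, abs_of_pos h0]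
      linarith
    have hcont : ContinuousOn (fun z : ℂ => (h (ρ * z)).re) (sphere 0 1) := by
      apply Complex.continuous_re.comp_continuousOn
      exact hh.continuousOn.comp (by fun_prop) hmaps
    have hwc : ContinuousOn w (sphere 0 1) :=
      Real.continuous_exp.comp_continuousOn (hcont.const_smul p)
    have hwpos : ∀ z : ℂ, ‖z‖ = 1 → 0 < w z := fun z _ => Real.exp_pos _
    have hlog : ∀ z, Real.log (w z) = p * (h (ρ * z)).re := fun z => Real.log_exp _
    have hTlog : (fun z => TP n τ z * Real.log (w z))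
        = fun z => p • (TP n τ z * (h (ρ * z)).re) := by
      funext z; rw [hlog, smul_eq_mul]; ring
    have hci : CircleIntegrable (fun z => TP n τ z * Real.log (w z)) 0 1 := by
      apply ContinuousOn.circleIntegrable'
      rw [hTlog, abs_one]
      exact ((TP_cont n τ).continuousOn.mul hcont).const_smul p
    have hav : av w ≤ 1 := by
      have h2 := hmean ρ h0 h1
      rw [avg_scale] at h2
      exact h2
    have havpos : 0 < av w := av_pos hwc hwpos
    have hg := hG (TP n τ) w (TP_cont n τ).continuousOn hwc hτ.2 (fun z hz => (hwpos z hz).le)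
      (by
        have : {z : ℂ | ‖z‖ = 1 ∧ w z = 0} = ∅ := by
          ext z
          simp only [mem_ofPred_eq, mem_empty_iff_false, iff_false, not_and]
          intro hz
          exact (hwpos z hz).ne'
        rw [this]; exact finite_empty)
      hci (by rw [av_TP_one n τ him, hτ.1]; simp) havpos
    have hlog0 : Real.log (av w) ≤ 0 := Real.log_nonpos havpos.le hav
    rw [hTlog] at hg
    have e2 : av (fun z => p • (TP n τ z * (h (ρ * z)).re))
        = p * L n (fun k => (ρ : ℂ) ^ k * co h k) τ := by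
      rw [← av_TP hh h0 h1 n τ him]
      unfold av
      rw [Real.circleAverage_fun_smul, smul_eq_mul]
    rw [e2] at hg
    linarith
  -- let the radius tend to one
  have hcontL : Continuous (fun ρ : ℝ => p * L n (fun k => (ρ : ℂ) ^ k * co h k) τ) := by
    unfold L
    fun_prop
  have hlim : Tendsto (fun ρ : ℝ => p * L n (fun k => (ρ : ℂ) ^ k * co h k) τ) (𝓝[<] 1)
      (𝓝 (p * L n (fun k => co h k) τ)) := by
    have h1 := (hcontL.tendsto 1).mono_left (nhdsWithin_le_nhds (s := Iio (1 : ℝ)))
    simpa using h1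
  have hle : p * L n (fun k => co h k) τ ≤ ent (TP n τ) := by
    apply le_of_tendsto hlim
    have hmem : Ioo (0 : ℝ) 1 ∈ 𝓝[<] (1 : ℝ) := Ioo_mem_nhdsLT one_pos
    filter_upwards [hmem] with ρ hρ
    exact key ρ hρ.1 hρ.2
  rw [one_div, ← div_eq_inv_mul, le_div_iff₀ hp0, mul_comm]
  exact hle

end Pool.Agent.H62.NP
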