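import Mathlib
import Pool.Agent.H62.NP.NPCC

/-!
# NP, module K23: duality at a maximiser
-/

set_option autoImplicit false

open Metric Set Filter Topology Polynomial

namespace Pool.Agent.H62.NP

open Pool.Agent.H82.NP

/-- multiplication of an integrable function by a continuous one -/
lemma ci_mul {T f : ℂ → ℝ} (hT : ContinuousOn T (sphere 0 1)) (hf : CircleIntegrable f 0 1) :
    CircleIntegrable (fun z => T z * f z) 0 1 := by
  unfold CircleIntegrable at hf ⊢
  apply IntervalIntegrable.continuousOn_mul hf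
  apply hT.comp (continuous_circleMap 0 1).continuousOn
  intro θ _
  simp

lemma log_sq_ci (G : ℂ[X]) : CircleIntegrable (fun z => Real.log (sq G z)) 0 1 := by
  have h1 : MeromorphicOn (fun z => G.eval z) (sphere (0 : ℂ) |1|) := by
    intro z _
    exact (G.differentiable.analyticAt z).meromorphicAt
  have h2 := h1.circleIntegrable_log_norm
  have h3 : (fun z => Real.log (sq G z)) = fun z => (2 : ℝ) * Real.log ‖G.eval z‖ := by
    funext z
    unfold H82.NP.sq
    rw [Real.log_pow]
    norm_num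
  rw [h3]
  exact ci_mul continuousOn_const h2

lemma sq_cont (G : ℂ[X]) : Continuous (sq G) := by
  unfold H82.NP.sq
  have := G.continuous
  fun_prop

lemma sq_zeros_finite {G : ℂ[X]} (hG : G ≠ 0) : {z : ℂ | ‖z‖ = 1 ∧ sq G z = 0}.Finite := by
  apply Set.Finite.subset G.roots.toFinset.finite_toSet
  intro z hz
  have h1 : G.eval z = 0 := by
    have := hz.2
    unfold H82.NP.sq at this
    exact norm_eq_zero.mp (pow_eq_zero_iff (two_ne_zero) |>.mp this)
  simp only [Finset.mem_coe, Multiset.mem_toFinset]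
  exact (mem_roots hG).mpr h1

lemma ne_zero_of_zf {G : ℂ[X]} (h : ∀ z : ℂ, ‖z‖ < 1 → G.eval z ≠ 0) : G ≠ 0 := by
  rintro rfl
  exact h 0 (by simp) eval_zero

lemma av_congr {f g : ℂ → ℝ} (h : ∀ z : ℂ, ‖z‖ = 1 → f z = g z) : av f = av g := by
  unfold av
  apply Real.circleAverage_congr_sphere
  intro z hz
  exact h z (by simpa using hz)

lemma ci_congr {f g : ℂ → ℝ} (h : ∀ z : ℂ, ‖z‖ = 1 → f z = g z) (hf : CircleIntegrable f 0 1) :
    CircleIntegrable g 0 1 := by
  have : (fun θ => g (circleMap 0 1 θ)) = fun θ => f (circleMap 0 1 θ) := by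
    funext θ
    exact (h _ (by simp)).symm
  unfold CircleIntegrable at hf ⊢
  rw [this]
  exact hf

lemma av_mono {f g : ℂ → ℝ} (hf : CircleIntegrable f 0 1) (hg : CircleIntegrable g 0 1)
    (h : ∀ z : ℂ, ‖z‖ = 1 → f z ≤ g z) : av f ≤ av g := by
  unfold av
  apply Real.circleAverage_mono hf hg
  intro z hz
  exact h z (by simpa using hz)

lemma adm_im {n : ℕ} {τ : ℕ → ℂ} (h : Adm n τ) : (τ 0).im = 0 := by rw [h.1]; simp

lemma adm_av {n : ℕ} {τ : ℕ → ℂ} (h : Adm n τ) : av (TP n τ) = 1 := by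
  rw [av_TP_one n τ (adm_im h), h.1]; simp

/-- the logarithm of an admissible trigonometric polynomial is integrable, its zeros on the
circle are finitely many -/
lemma adm_log (hFR : T_FR) {n : ℕ} {τ : ℕ → ℂ} (h : Adm n τ) :
    CircleIntegrable (fun z => Real.log (TP n τ z)) 0 1 ∧
      {z : ℂ | ‖z‖ = 1 ∧ TP n τ z = 0}.Finite := by
  obtain ⟨G, _, hzf, hG⟩ := hFR n τ h
  refine ⟨ci_congr (fun z hz => by rw [hG z hz]) (log_sq_ci G), ?_⟩
  apply (sq_zeros_finite (ne_zero_of_zf hzf)).subset
  intro z hz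
  exact ⟨hz.1, by rw [hG z hz.1]; exact hz.2⟩

/-- Gibbs for two admissible trigonometric polynomials -/
lemma gibbs_adm (hG : T_GIBBS) (hFR : T_FR) {n : ℕ} {τ σ : ℕ → ℂ} (hτ : Adm n τ)
    (hσ : Adm n σ) :
    av (fun z => TP n τ z * Real.log (TP n σ z)) ≤ ent (TP n τ) := by
  obtain ⟨h1, h2⟩ := adm_log hFR hσ
  have h3 := hG (TP n τ) (TP n σ) (TP_cont n τ).continuousOn (TP_cont n σ).continuousOn hτ.2 hσ.2
    h2 (ci_mul (TP_cont n τ).continuousOn h1) (adm_av hτ) (by rw [adm_av hσ]; exact one_pos)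
  rw [adm_av hσ, Real.log_one, add_zero] at h3
  exact h3

lemma L_smul (n : ℕ) (s : ℝ) (c τ : ℕ → ℂ) :
    L n (fun k => (s : ℂ) * c k) τ = s * L n c τ := by
  unfold L
  rw [← Complex.re_ofReal_mul, Finset.mul_sum]
  congr 1
  apply Finset.sum_congr rfl
  intro k _
  ring

theorem t_K2 (hOPT : T_OPT) (hK1 : T_K1) (hFR : T_FR) (hLOG : T_LOG) (hG : T_GIBBS) : T_K2 := by
  intro n s c hn hs hc
  have hK := hK1 n s c hn hs hc
  obtain ⟨G, _, hzf, hGe⟩ := hFR n (H82.NP.ker n c) hK
  obtain ⟨lam, hlam⟩ := hLOG G hzf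
  have hlog : ∀ τ, Adm n τ →
      L n lam τ = av (fun z => TP n τ z * Real.log (TP n (H82.NP.ker n c) z)) := by
    intro τ hτ
    rw [← hlam.mom n τ (adm_im hτ)]
    apply av_congr
    intro z hz
    rw [hGe z hz]
  apply le_antisymm (hc.mem _ hK)
  have hd : (fun k => (s : ℂ) * lam k) ∈ CC n s := by
    intro τ hτ
    rw [L_smul, hlog τ hτ]
    exact mul_le_mul_of_nonneg_left (gibbs_adm hG hFR hτ hK) hs.le
  have h1 := hOPT n s c hc _ hd
  rw [L_smul, hlog _ hK] at h1
  exact h1

/-- convex combinations -/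
noncomputable def mix (K τ : ℕ → ℂ) (t : ℝ) : ℕ → ℂ := fun k => K k + (t : ℂ) * (τ k - K k)

lemma TP_mix (n : ℕ) (K τ : ℕ → ℂ) (t : ℝ) (z : ℂ) :
    TP n (mix K τ t) z = (1 - t) * TP n K z + t * TP n τ z := by
  have h1 : mix K τ t = fun k => ((1 - t : ℝ) : ℂ) * K k + (t : ℂ) * τ k := by
    funext k; unfold mix; push_cast; ring
  rw [h1, TP_add n (fun k => ((1 - t : ℝ) : ℂ) * K k) (fun k => (t : ℂ) * τ k), TP_smul, TP_smul]

lemma adm_mix {n : ℕ} {K τ : ℕ → ℂ} (hK : Adm n K) (hτ : Adm n τ) {t : ℝ} (h0 : 0 ≤ t)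
    (h1 : t ≤ 1) : Adm n (mix K τ t) := by
  refine ⟨by unfold mix; rw [hK.1, hτ.1]; ring, fun z hz => ?_⟩
  rw [TP_mix]
  have h2 := hK.2 z hz
  have h3 := hτ.2 z hz
  have h4 : 0 ≤ 1 - t := by linarith
  positivity

lemma L_mix (n : ℕ) (c K τ : ℕ → ℂ) (t : ℝ) :
    L n c (mix K τ t) = (1 - t) * L n c K + t * L n c τ := by
  unfold L mix
  have : ∑ k ∈ Finset.range (n + 1), c k * (K k + (t : ℂ) * (τ k - K k))
      = ((1 - t : ℝ) : ℂ) * ∑ k ∈ Finset.range (n + 1), c k * K k
        + (t : ℂ) * ∑ k ∈ Finset.range (n + 1), c k * τ k := by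
    rw [Finset.mul_sum, Finset.mul_sum, ← Finset.sum_add_distrib]
    apply Finset.sum_congr rfl
    intro k _
    push_cast
    ring
  rw [this, Complex.add_re, Complex.re_ofReal_mul, Complex.re_ofReal_mul]

/-- monotone convergence of the averages of `T log (K + t C)` -/
lemma tendsto_av {T K : ℂ → ℝ} (hT : ContinuousOn T (sphere 0 1)) (hK : ContinuousOn K (sphere 0 1))
    (hK0 : ∀ z : ℂ, ‖z‖ = 1 → 0 ≤ K z) (hfin : {z : ℂ | ‖z‖ = 1 ∧ K z = 0}.Finite)
    (hlog : CircleIntegrable (fun z => Real.log (K z)) 0 1) {C : ℝ} (hC : 1 ≤ C)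
    (hKC : ∀ z : ℂ, ‖z‖ = 1 → K z ≤ C) :
    Tendsto (fun t : ℝ => av (fun z => T z * Real.log (K z + t * C))) (𝓝[>] 0)
      (𝓝 (av (fun z => T z * Real.log (K z)))) := by
  unfold av Real.circleAverage
  apply Tendsto.const_smul
  have hcm : MapsTo (circleMap (0 : ℂ) 1) univ (sphere 0 1) := fun θ _ => by simp
  have hTc : Continuous (fun θ => T (circleMap 0 1 θ)) := by
    rw [← continuousOn_univ]
    exact hT.comp (continuous_circleMap 0 1).continuousOn hcm
  have hKc : Continuous (fun θ => K (circleMap 0 1 θ)) := by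
    rw [← continuousOn_univ]
    exact hK.comp (continuous_circleMap 0 1).continuousOn hcm
  have hn : ∀ θ, ‖circleMap (0 : ℂ) 1 θ‖ = 1 := fun θ => by simp
  have hC0 : 0 < C := by linarith
  have hae : ∀ᵐ θ : ℝ, K (circleMap 0 1 θ) ≠ 0 := by
    have h1 : (circleMap (0 : ℂ) 1 ⁻¹' {z : ℂ | ‖z‖ = 1 ∧ K z = 0}).Countable :=
      hfin.countable.preimage_circleMap 0 one_ne_zero
    filter_upwards [h1.ae_notMem MeasureTheory.volume] with θ hθ h0
    exact hθ ⟨hn θ, h0⟩
  apply intervalIntegral.tendsto_integral_filter_of_dominated_convergence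
    (fun θ => |T (circleMap 0 1 θ)| * (|Real.log (K (circleMap 0 1 θ))| + Real.log (2 * C)))
  · filter_upwards [self_mem_nhdsWithin] with t ht
    have ht' : 0 < t := ht
    apply Continuous.aestronglyMeasurable
    apply hTc.mul
    apply Continuous.log
    · exact hKc.add continuous_const
    · intro θ
      have := hK0 _ (hn θ)
      positivity
  · have hmem : Ioo (0 : ℝ) 1 ∈ 𝓝[>] (0 : ℝ) := Ioo_mem_nhdsGT one_pos
    filter_upwards [hmem] with t ht
    filter_upwards [hae] with θ hθ _
    rw [norm_mul, Real.norm_eq_abs, Real.norm_eq_abs]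
    apply mul_le_mul_of_nonneg_left _ (abs_nonneg _)
    have hk : 0 < K (circleMap 0 1 θ) := lt_of_le_of_ne (hK0 _ (hn θ)) (Ne.symm hθ)
    have hkc := hKC _ (hn θ)
    have h1 : Real.log (K (circleMap 0 1 θ)) ≤ Real.log (K (circleMap 0 1 θ) + t * C) := by
      apply Real.log_le_log hk
      have := mul_pos ht.1 hC0
      linarith
    have h2 : Real.log (K (circleMap 0 1 θ) + t * C) ≤ Real.log (2 * C) := by
      apply Real.log_le_log
      · have := mul_pos ht.1 hC0
        linarith
      · nlinarith [ht.2]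
    have h3 : 0 ≤ Real.log (2 * C) := Real.log_nonneg (by linarith)
    rw [abs_le]
    constructor
    · have := neg_abs_le (Real.log (K (circleMap 0 1 θ)))
      linarith
    · have := abs_nonneg (Real.log (K (circleMap 0 1 θ)))
      linarith
  · apply IntervalIntegrable.continuousOn_mul _ hTc.abs.continuousOn
    apply IntervalIntegrable.add
    · exact IntervalIntegrable.abs hlog
    · exact intervalIntegrable_const
  · filter_upwards [hae] with θ hθ _
    apply Tendsto.const_mul
    have h1 : Tendsto (fun t : ℝ => K (circleMap 0 1 θ) + t * C) (𝓝[>] 0)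
        (𝓝 (K (circleMap 0 1 θ))) := by
      have : Continuous (fun t : ℝ => K (circleMap 0 1 θ) + t * C) := by fun_prop
      have h2 := (this.tendsto 0).mono_left (nhdsWithin_le_nhds (s := Ioi (0 : ℝ)))
      simpa using h2
    exact h1.log hθ

theorem t_K3 (hOPT : T_OPT) (hK1 : T_K1) (hFR : T_FR) (hLOG : T_LOG) (hG : T_GIBBS)
    (hADM : T_ADM) : T_K3 := by
  intro n s c hn hs hc τ hτ
  have hK := hK1 n s c hn hs hc
  have hk2 := t_K2 hOPT hK1 hFR hLOG hG n s c hn hs hc
  set K : ℕ → ℂ := H82.NP.ker n c with hKdef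
  obtain ⟨hKlog, hKfin⟩ := adm_log hFR hK
  set C : ℝ := (n : ℝ) + 1 with hC
  have hC1 : 1 ≤ C := by
    have : (0 : ℝ) ≤ n := Nat.cast_nonneg n
    linarith
  have step : ∀ t : ℝ, 0 < t → t < 1 →
      L n c τ ≤ s * av (fun z => TP n τ z * Real.log (TP n K z + t * C)) := by
    intro t h0 h1
    have hM := adm_mix hK hτ h0.le h1.le
    obtain ⟨hMlog, hMfin⟩ := adm_log hFR hM
    have e1 : ent (TP n (mix K τ t)) =
        (1 - t) * av (fun z => TP n K z * Real.log (TP n (mix K τ t) z))
          + t * av (fun z => TP n τ z * Real.log (TP n (mix K τ t) z)) := by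
      unfold ent av
      have e2 : (fun z => TP n (mix K τ t) z * Real.log (TP n (mix K τ t) z))
          = fun z => (1 - t) • (TP n K z * Real.log (TP n (mix K τ t) z))
            + t • (TP n τ z * Real.log (TP n (mix K τ t) z)) := by
        funext z
        rw [smul_eq_mul, smul_eq_mul]
        nth_rewrite 1 [TP_mix]
        ring
      have i1 := ci_mul (TP_cont n K).continuousOn hMlog
      have i2 := ci_mul (TP_cont n τ).continuousOn hMlog
      have i1' : CircleIntegrable (fun z => (1 - t) • (TP n K z * Real.log (TP n (mix K τ t) z)))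
          0 1 := ci_mul (T := fun _ => 1 - t) continuousOn_const i1
      have i2' : CircleIntegrable (fun z => t • (TP n τ z * Real.log (TP n (mix K τ t) z)))
          0 1 := ci_mul (T := fun _ => t) continuousOn_const i2
      rw [e2, Real.circleAverage_fun_add i1' i2', Real.circleAverage_fun_smul,
        Real.circleAverage_fun_smul, smul_eq_mul, smul_eq_mul]
    have h2 := hc.mem _ hM
    rw [L_mix, e1, hk2] at h2
    have h3 := gibbs_adm hG hFR hK hM
    have h4 : (1 - t) * (s * av (fun z => TP n K z * Real.log (TP n (mix K τ t) z)))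
        ≤ (1 - t) * (s * ent (TP n K)) := by
      apply mul_le_mul_of_nonneg_left _ (by linarith)
      exact mul_le_mul_of_nonneg_left h3 hs.le
    have h5 : t * L n c τ
        ≤ t * (s * av (fun z => TP n τ z * Real.log (TP n (mix K τ t) z))) := by
      nlinarith
    have h6 := le_of_mul_le_mul_left h5 h0
    apply h6.trans
    apply mul_le_mul_of_nonneg_left _ hs.le
    apply av_mono (ci_mul (TP_cont n τ).continuousOn hMlog)
    · apply ContinuousOn.circleIntegrable'
      apply ContinuousOn.mul (TP_cont n τ).continuousOn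
      apply ContinuousOn.log
      · exact ((TP_cont n K).add continuous_const).continuousOn
      · intro z hz
        have hz' : ‖z‖ = 1 := by simpa using hz
        have := hK.2 z hz'
        have h7 : 0 < t * C := mul_pos h0 (by linarith)
        linarith
    · intro z hz
      have a1 := hK.2 z hz
      have a2 := hτ.2 z hz
      have a3 := (hADM n τ hτ).1 z hz
      have h7 : 0 < t * C := mul_pos h0 (by linarith)
      rcases eq_or_lt_of_le a2 with h8 | h8
      · rw [← h8]; simp
      · apply mul_le_mul_of_nonneg_left _ a2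
        apply Real.log_le_log
        · rw [TP_mix]
          have : 0 < t * TP n τ z := mul_pos h0 h8
          have h9 : 0 ≤ (1 - t) * TP n K z := mul_nonneg (by linarith) a1
          linarith
        · rw [TP_mix]
          have h9 : t * TP n τ z ≤ t * C := mul_le_mul_of_nonneg_left a3 h0.le
          nlinarith
  have hlim := tendsto_av (T := TP n τ) (K := TP n K) (TP_cont n τ).continuousOn
    (TP_cont n K).continuousOn hK.2 hKfin hKlog hC1 (hADM n K hK).1
  have hlim2 := hlim.const_mul s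
  apply ge_of_tendsto hlim2
  have hmem : Ioo (0 : ℝ) 1 ∈ 𝓝[>] (0 : ℝ) := Ioo_mem_nhdsGT one_pos
  filter_upwards [hmem] with t ht
  exact step t ht.1 ht.2

end Pool.Agent.H62.NP
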