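import Mathlib
import Pool.Agent.H82.NP.Targets

/-!
# NP, module OPT: first order optimality and positivity of the kernel
-/

set_option autoImplicit false

open Metric Set Filter Topology Polynomial

namespace Pool.Agent.H62.NP

open Pool.Agent.H82.NP

/-- linearity of the pairing in the first argument -/
lemma L_line (n : ℕ) (c d τ : ℕ → ℂ) (t : ℝ) :
    L n (fun k => c k + (t : ℂ) * (d k - c k)) τ = (1 - t) * L n c τ + t * L n d τ := by
  unfold L
  have : ∑ k ∈ Finset.range (n + 1), (c k + (t : ℂ) * (d k - c k)) * τ k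
      = ((1 - t : ℝ) : ℂ) * ∑ k ∈ Finset.range (n + 1), c k * τ k
        + (t : ℂ) * ∑ k ∈ Finset.range (n + 1), d k * τ k := by
    rw [Finset.mul_sum, Finset.mul_sum, ← Finset.sum_add_distrib]
    apply Finset.sum_congr rfl
    intro k _
    push_cast
    ring
  rw [this, Complex.add_re, Complex.re_ofReal_mul, Complex.re_ofReal_mul]

theorem t_OPT (hEAD : T_EAD) : T_OPT := by
  intro n s c hc d hd
  set A : ℝ := ‖ea c n‖ with hA
  have hApos : 0 < A := hc.pos
  -- the derivative
  have hder := hEAD c (fun k => d k - c k) n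
  set D : ℂ := ∑ j ∈ Finset.range (n + 1), ea c (n - j) * (d j - c j) with hD
  have hre : HasDerivAt (fun t : ℝ => (ea (fun k => c k + (t : ℂ) * (d k - c k)) n).re) D.re 0 := by
    exact Complex.reCLM.hasFDerivAt.comp_hasDerivAt (0 : ℝ) hder
  have hslope := hre.tendsto_slope_zero_right
  have hle : D.re ≤ 0 := by
    apply le_of_tendsto hslope
    have hmem : Ioo (0 : ℝ) 1 ∈ 𝓝[>] (0 : ℝ) := Ioo_mem_nhdsGT one_pos
    filter_upwards [hmem] with t ht
    have h1 : (fun k => c k + (t : ℂ) * (d k - c k)) ∈ CC n s := by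
      intro τ hτ
      rw [L_line]
      have h2 := hc.mem τ hτ
      have h3 := hd τ hτ
      have h4 : 0 < t := ht.1
      have h5 : 0 < 1 - t := by linarith [ht.2]
      nlinarith
    have h2 := hc.max _ h1
    have h3 : (ea (fun k => c k + (t : ℂ) * (d k - c k)) n).re ≤ A :=
      (Complex.re_le_norm _).trans h2
    have h4 : (ea (fun k => c k + ((0 : ℝ) : ℂ) * (d k - c k)) n).re = A := by
      have : (fun k => c k + ((0 : ℝ) : ℂ) * (d k - c k)) = c := by
        funext k; simp
      rw [this, hc.real, Complex.ofReal_re]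
    rw [zero_add, h4, smul_eq_mul]
    have h5 : 0 < t⁻¹ := inv_pos.mpr ht.1
    nlinarith
  -- translate
  have hL : ∀ e : ℕ → ℂ, L n e (ker n c)
      = (∑ j ∈ Finset.range (n + 1), ea c (n - j) * e j).re / A := by
    intro e
    unfold L
    have : ∑ k ∈ Finset.range (n + 1), e k * ker n c k
        = ((A⁻¹ : ℝ) : ℂ) * ∑ j ∈ Finset.range (n + 1), ea c (n - j) * e j := by
      rw [Finset.mul_sum]
      apply Finset.sum_congr rfl
      intro k hk
      rw [Finset.mem_range] at hk
      rw [H82.NP.ker, if_pos (by omega), hc.real]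
      push_cast
      rw [← hA]
      ring
    rw [this, Complex.re_ofReal_mul]
    ring
  rw [hL, hL]
  apply div_le_div_of_nonneg_right _ hApos.le
  have h6 : D = (∑ j ∈ Finset.range (n + 1), ea c (n - j) * d j)
      - ∑ j ∈ Finset.range (n + 1), ea c (n - j) * c j := by
    rw [hD, ← Finset.sum_sub_distrib]
    apply Finset.sum_congr rfl
    intro j _
    ring
  rw [h6, Complex.sub_re] at hle
  linarith

theorem t_K1 (hEAD : T_EAD) : T_K1 := by
  intro n s c _ _ hc
  refine ⟨?_, fun ζ hζ => ?_⟩
  · rw [H82.NP.ker, if_pos (Nat.zero_le _), Nat.sub_zero]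
    apply div_self
    intro h
    have := hc.pos
    rw [h, norm_zero] at this
    exact lt_irrefl _ this
  · set e : ℕ → ℂ := fun k => if k = 0 then 1 else 2 * (starRingEnd ℂ) ζ ^ k with he
    have hLe : ∀ τ : ℕ → ℂ, (∑ k ∈ Finset.range (n + 1), e k * τ k).re = TP n τ ζ := by
      intro τ
      rw [Complex.re_sum, Finset.range_eq_Ico,
        Finset.sum_eq_sum_Ico_succ_bot (Nat.succ_pos n), TP, Finset.mul_sum]
      congr 1
      · simp [he]
      · have : Finset.Ico (0 + 1) (n + 1) = Finset.Icc 1 n := by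
          ext a; simp only [Finset.mem_Icc, Finset.mem_Ico]; omega
        rw [this]
        apply Finset.sum_congr rfl
        intro k hk
        rw [Finset.mem_Icc] at hk
        simp only [he]
        rw [if_neg (by omega), ← Complex.conj_re]
        simp only [map_mul, map_pow, Complex.conj_conj]
        have h2 : (starRingEnd ℂ) 2 = 2 := Complex.conj_ofNat 2
        rw [h2]
        have h3 : 2 * ζ ^ k * (starRingEnd ℂ) (τ k)
            = ((2 : ℝ) : ℂ) * ((starRingEnd ℂ) (τ k) * ζ ^ k) := by push_cast; ring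
        rw [h3, Complex.re_ofReal_mul]
    have hLd : ∀ τ : ℕ → ℂ, L n (fun k => c k - e k) τ = L n c τ - TP n τ ζ := by
      intro τ
      rw [← hLe τ, L, L, ← Complex.sub_re, ← Finset.sum_sub_distrib]
      congr 1
      apply Finset.sum_congr rfl
      intro k _
      ring
    have hd : (fun k => c k - e k) ∈ CC n s := by
      intro τ hτ
      rw [hLd]
      have h1 := hc.mem τ hτ
      have h2 := hτ.2 ζ hζ
      linarith
    have h1 := t_OPT hEAD n s c hc _ hd
    rw [hLd] at h1
    linarith

end Pool.Agent.H62.NP
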