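import Mathlib
import Pool.Agent.H82.NP.Trig

/-!
# NP, module SELF: self-inversive polynomials
-/

set_option autoImplicit false

open Metric Set Filter Topology Polynomial

namespace Pool.Agent.H62.NP

open Pool.Agent.H82.NP

open ComplexConjugate

/-- the conjugate reciprocal polynomial is a unimodular multiple -/
def SI (G : ℂ[X]) : Prop := ∃ κ : ℂ, ‖κ‖ = 1 ∧ (G.map (starRingEnd ℂ)).reverse = C κ * G

lemma SI_mul {P Q : ℂ[X]} (hP : SI P) (hQ : SI Q) : SI (P * Q) := by
  obtain ⟨a, ha, ha'⟩ := hP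
  obtain ⟨b, hb, hb'⟩ := hQ
  refine ⟨a * b, by rw [norm_mul, ha, hb, one_mul], ?_⟩
  rw [Polynomial.map_mul, reverse_mul_of_domain, ha', hb', C_mul]
  ring

lemma SI_C {a : ℂ} (ha : a ≠ 0) : SI (C a) := by
  refine ⟨conj a / a, ?_, ?_⟩
  · rw [norm_div, RCLike.norm_conj, div_self (norm_ne_zero_iff.mpr ha)]
  · rw [map_C, reverse_C, ← C_mul]
    congr 1
    field_simp

lemma SI_X_sub {ζ : ℂ} (hζ : ‖ζ‖ = 1) : SI (X - C ζ) := by
  have hz : ζ * conj ζ = 1 := by rw [Complex.mul_conj, Complex.normSq_eq_norm_sq, hζ]; simp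
  have hζ0 : ζ ≠ 0 := by
    intro h
    rw [h, norm_zero] at hζ
    exact zero_ne_one hζ
  refine ⟨-conj ζ, by rw [norm_neg, RCLike.norm_conj, hζ], ?_⟩
  have h1 : (X - C ζ : ℂ[X]).map (starRingEnd ℂ) = X + C (-conj ζ) := by
    simp [sub_eq_add_neg]
  rw [h1]
  have h2 : (X + C (-conj ζ) : ℂ[X]).natDegree = 1 := natDegree_X_add_C _
  ext k
  rw [coeff_reverse, h2, coeff_C_mul]
  rcases Nat.lt_or_ge 1 k with hk | hk
  · rw [revAt_eq_self_of_lt hk]
    have h3 : k ≠ 0 := by omega
    have h4 : (1 : ℕ) ≠ k := by omega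
    simp [coeff_X, coeff_C, h3, h4]
  · rw [revAt_le hk]
    interval_cases k
    · simp [coeff_X, coeff_C, mul_comm (conj ζ) ζ, hz]
    · simp [coeff_X, coeff_C]

lemma SI_prod (s : Multiset ℂ) (hs : ∀ ζ ∈ s, ‖ζ‖ = 1) :
    SI ((s.map fun a => X - C a).prod) := by
  induction s using Multiset.induction_on with
  | empty =>
    simp only [Multiset.map_zero, Multiset.prod_zero]
    have := SI_C (a := 1) one_ne_zero
    simpa using this
  | cons a s ih =>
    rw [Multiset.map_cons, Multiset.prod_cons]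
    exact SI_mul (SI_X_sub (hs a (Multiset.mem_cons_self a s)))
      (ih fun ζ hζ => hs ζ (Multiset.mem_cons_of_mem hζ))

lemma SI_of_roots {G : ℂ[X]} (hG : G ≠ 0) (h : ∀ z, G.eval z = 0 → ‖z‖ = 1) : SI G := by
  have h1 := (IsAlgClosed.splits G).eq_prod_roots
  rw [h1]
  apply SI_mul (SI_C (leadingCoeff_ne_zero.mpr hG))
  apply SI_prod
  intro ζ hζ
  exact h ζ ((mem_roots hG).mp hζ)

theorem t_SELF : T_SELF := by
  intro n G hn hG h
  obtain ⟨κ, hκ, hκ'⟩ := SI_of_roots hG h
  refine ⟨conj κ, by rw [RCLike.norm_conj, hκ], fun j hj => ?_⟩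
  have h1 : (G.map (starRingEnd ℂ)).reverse.coeff j = (C κ * G).coeff j := by rw [hκ']
  have hdeg : (G.map (starRingEnd ℂ)).natDegree = n := by
    rw [natDegree_map, hn]
  rw [coeff_reverse, hdeg, revAt_le hj, coeff_map, coeff_C_mul] at h1
  have h2 := congrArg (starRingEnd ℂ) h1
  rw [Complex.conj_conj, map_mul] at h2
  exact h2

lemma coeff_pA (n : ℕ) (G : ℂ[X]) (j : ℕ) : (pA n G).coeff j = (j : ℂ) / n * G.coeff j := by
  unfold pA
  rw [coeff_C_mul]
  rcases j with _ | j
  · simp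
  · rw [coeff_X_mul, coeff_derivative]
    push_cast
    ring

lemma coeff_pB (n : ℕ) (G : ℂ[X]) (j : ℕ) :
    (pB n G).coeff j = (1 - (j : ℂ) / n) * G.coeff j := by
  unfold pB
  rw [coeff_sub, coeff_pA]
  ring

lemma natDegree_pA (n : ℕ) (G : ℂ[X]) (hG : G.natDegree ≤ n) : (pA n G).natDegree ≤ n := by
  rw [natDegree_le_iff_coeff_eq_zero]
  intro j hj
  rw [coeff_pA, coeff_eq_zero_of_natDegree_lt (lt_of_le_of_lt hG hj), mul_zero]

lemma natDegree_pB (n : ℕ) (G : ℂ[X]) (hG : G.natDegree ≤ n) : (pB n G).natDegree ≤ n := by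
  rw [natDegree_le_iff_coeff_eq_zero]
  intro j hj
  rw [coeff_pB, coeff_eq_zero_of_natDegree_lt (lt_of_le_of_lt hG hj), mul_zero]

/-- the two parts have the same modulus on the circle -/
lemma norm_AB {n : ℕ} {G : ℂ[X]} (hn : 1 ≤ n) (hdeg : G.natDegree = n)
    (h : ∀ z, G.eval z = 0 → ‖z‖ = 1) {z : ℂ} (hz : ‖z‖ = 1) :
    ‖(pA n G).eval z‖ = ‖(pB n G).eval z‖ := by
  have hG0 : G ≠ 0 := by
    rintro rfl
    simp at hdeg
    omega
  obtain ⟨κ, hκ, hκ'⟩ := t_SELF n G hdeg hG0 h
  have hn0 : (n : ℂ) ≠ 0 := by exact_mod_cast (by omega : n ≠ 0)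
  have hzz : z * conj z = 1 := by rw [Complex.mul_conj, Complex.normSq_eq_norm_sq, hz]; simp
  have e1 : (pA n G).eval z = κ * z ^ n * conj ((pB n G).eval z) := by
    rw [eval_eq (natDegree_pA n G hdeg.le), eval_eq (natDegree_pB n G hdeg.le), map_sum,
      Finset.mul_sum, ← Finset.sum_range_reflect]
    apply Finset.sum_congr rfl
    intro j hj
    rw [Finset.mem_range] at hj
    have hj' : j ≤ n := by omega
    have e2 : n + 1 - 1 - j = n - j := by omega
    rw [e2, coeff_pA, coeff_pB, hκ' j hj']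
    have e3 : z ^ n = z ^ (n - j) * z ^ j := by rw [← pow_add]; congr 1; omega
    have e4 : z ^ j * conj z ^ j = 1 := by rw [← mul_pow, hzz, one_pow]
    rw [Nat.cast_sub hj', e3]
    simp only [map_mul, map_sub, map_one, map_div₀, map_natCast, map_pow]
    have e5 : ((n : ℂ) - j) / n = 1 - (j : ℂ) / n := by field_simp
    rw [e5]
    linear_combination (-((1 - (j : ℂ) / n) * (κ * conj (G.coeff j)) * z ^ (n - j))) * e4
  rw [e1, norm_mul, norm_mul, norm_pow, hκ, hz, one_pow, one_mul, one_mul, RCLike.norm_conj]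

/-- real part of `z / (z - ζ)` inside the disc -/
lemma re_lt {z ζ : ℂ} (hz : ‖z‖ < 1) (hζ : ‖ζ‖ = 1) : (z / (z - ζ)).re < 1 / 2 := by
  have hne : z - ζ ≠ 0 := by
    intro h
    rw [sub_eq_zero] at h
    rw [h, hζ] at hz
    exact lt_irrefl _ hz
  have hpos : 0 < Complex.normSq (z - ζ) := Complex.normSq_pos.mpr hne
  rw [Complex.div_re, ← add_div, div_lt_iff₀ hpos]
  have h1 : z.re ^ 2 + z.im ^ 2 < 1 := by
    have := Complex.sq_norm z
    rw [Complex.normSq_apply] at this
    nlinarith [norm_nonneg z]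
  have h2 : ζ.re ^ 2 + ζ.im ^ 2 = 1 := by
    have := Complex.sq_norm ζ
    rw [Complex.normSq_apply, hζ] at this
    nlinarith
  rw [Complex.normSq_apply]
  simp only [Complex.sub_re, Complex.sub_im]
  nlinarith

lemma sum_re_lt (s : Multiset ℂ) (f : ℂ → ℂ) (h : ∀ a ∈ s, (f a).re ≤ 1 / 2) :
    ((s.map f).sum).re ≤ s.card / 2 := by
  induction s using Multiset.induction_on with
  | empty => simp
  | cons a s ih =>
    rw [Multiset.map_cons, Multiset.sum_cons, Complex.add_re, Multiset.card_cons]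
    have h1 := h a (Multiset.mem_cons_self a s)
    have h2 := ih fun b hb => h b (Multiset.mem_cons_of_mem hb)
    push_cast
    linarith

/-- no zeros inside the disc -/
lemma pB_ne_inside {n : ℕ} {G : ℂ[X]} (hn : 1 ≤ n) (hdeg : G.natDegree = n)
    (h : ∀ z, G.eval z = 0 → ‖z‖ = 1) {z : ℂ} (hz : ‖z‖ < 1) : (pB n G).eval z ≠ 0 := by
  intro h0
  have hG0 : G ≠ 0 := by
    rintro rfl
    simp at hdeg
    omega
  have hn0 : (n : ℂ) ≠ 0 := by exact_mod_cast (by omega : n ≠ 0)
  have hGz : G.eval z ≠ 0 := by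
    intro h1
    rw [h z h1] at hz
    exact lt_irrefl _ hz
  have h2 : z * ((derivative G).eval z / G.eval z) = n := by
    unfold pB pA at h0
    rw [eval_sub, eval_mul, eval_mul, eval_C, eval_X] at h0
    field_simp at h0 ⊢
    linear_combination -h0
  have h3 : (derivative G).eval z / G.eval z = (G.roots.map fun a => 1 / (z - a)).sum :=
    (IsAlgClosed.splits G).eval_derivative_div_eval_of_ne_zero hGz
  rw [h3, ← Multiset.sum_map_mul_left] at h2
  have h4 := sum_re_lt G.roots (fun a => z * (1 / (z - a))) (by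
    intro a ha
    have := re_lt hz (h a ((mem_roots hG0).mp ha))
    rw [mul_one_div]
    exact this.le)
  rw [h2] at h4
  have h5 : G.roots.card = n := by
    rw [← (IsAlgClosed.splits G).natDegree_eq_card_roots, hdeg]
  rw [h5, Complex.natCast_re] at h4
  have : (0 : ℝ) < n := by exact_mod_cast (by omega : 0 < n)
  linarith

lemma exists_radius (s : Finset ℂ) (h : ∀ a ∈ s, 1 < ‖a‖) : ∃ R : ℝ, 1 < R ∧ ∀ a ∈ s, R ≤ ‖a‖ := by
  induction s using Finset.induction_on with
  | empty => exact ⟨2, by norm_num, fun a ha => by simp at ha⟩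
  | insert a s _ ih =>
    obtain ⟨R, hR, hR'⟩ := ih fun b hb => h b (Finset.mem_insert_of_mem hb)
    refine ⟨min R ‖a‖, lt_min hR (h a (Finset.mem_insert_self a s)), fun b hb => ?_⟩
    rw [Finset.mem_insert] at hb
    rcases hb with rfl | hb
    · exact min_le_right _ _
    · exact (min_le_left _ _).trans (hR' b hb)

theorem t_AB : T_AB := by
  intro n G hn hdeg hS
  have h : ∀ z, G.eval z = 0 → ‖z‖ = 1 := fun z hz => (hS z hz).1
  have hn0 : (n : ℂ) ≠ 0 := by exact_mod_cast (by omega : n ≠ 0)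
  refine ⟨?_, fun z hz => norm_AB hn hdeg h hz⟩
  have hne : ∀ z : ℂ, ‖z‖ ≤ 1 → (pB n G).eval z ≠ 0 := by
    intro z hz h0
    rcases lt_or_eq_of_le hz with h1 | h1
    · exact pB_ne_inside hn hdeg h h1 h0
    · have h2 : (pA n G).eval z = 0 := by
        rw [← norm_eq_zero, norm_AB hn hdeg h h1, h0, norm_zero]
      have h3 : G.eval z = 0 := by
        have : G.eval z = (pB n G).eval z + (pA n G).eval z := by
          unfold pB; rw [eval_sub]; ring
        rw [this, h0, h2, add_zero]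
      have hz0 : z ≠ 0 := by
        rintro rfl
        rw [norm_zero] at h1
        exact zero_ne_one h1
      unfold pA at h2
      rw [eval_mul, eval_mul, eval_C, eval_X] at h2
      have h4 : (derivative G).eval z = 0 := by
        rcases mul_eq_zero.mp h2 with h5 | h5
        · exact absurd h5 (inv_ne_zero hn0)
        · rcases mul_eq_zero.mp h5 with h6 | h6
          · exact absurd h6 hz0
          · exact h6
      exact (hS z h3).2 h4
  have hB0 : pB n G ≠ 0 := by
    intro h0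
    apply hne 0 (by simp)
    rw [h0, eval_zero]
  obtain ⟨R, hR, hR'⟩ := exists_radius (pB n G).roots.toFinset (by
    intro a ha
    rw [Multiset.mem_toFinset, mem_roots hB0] at ha
    by_contra hc
    push Not at hc
    exact hne a hc ha)
  refine ⟨R, hR, fun z hz h0 => ?_⟩
  have h1 := hR' z (by rw [Multiset.mem_toFinset, mem_roots hB0]; exact h0)
  rw [mem_ball_zero_iff] at hz
  linarith

end Pool.Agent.H62.NP
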